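import Pool.Agent.N181.T3.Glob
import Pool.Agent.N181.TA.Small

/-!
Cycles of length five of the roots: the polynomials stay irreducible over the extensions of degree at
most three.
-/

set_option autoImplicit false
set_option linter.all false

open Polynomial
open scoped Classical

namespace Pool.Agent.N181.TB

open Pool.Agent.N181.TA
open Pool.Agent.N181.T3 (Stays)
open Pool.Agent.X243.Gen Pool.Agent.X243.Sol Pool.Agent.X243.Tate

section stays

variable {L L' : Type} [Field L] [Field L'] [Algebra L L']

theorem three_restrict {M : IntermediateField L L'} {k1 : IntermediateField M L'} {Z : Set L'}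
    (h : Three (k1.restrictScalars L) Z) : Three k1 Z := by
  intro x hx y hy hxy
  obtain ⟨g, z, h1, h2, h3⟩ := h x hx y hy hxy
  obtain ⟨g', hg'⟩ : ∃ g' : L' ≃ₐ[k1] L', ∀ x, g' x = g x :=
    ⟨AlgEquiv.ofRingEquiv (f := g.toRingEquiv) (fun r => g.commutes ⟨r.1, r.2⟩), fun x => rfl⟩
  exact ⟨g', z, by rw [hg', h1], by rw [hg', h2], by rw [hg', h3]⟩

theorem five_stays {k : Type} [Field k] {F : k[X]} (hF : F.Separable) (h5 : 5 ≤ F.natDegree)
    (L L' : Type) [Field L] [Field L'] [Algebra k L] [Algebra L L'] [Algebra k L']
    [IsScalarTower k L L'] [IsSepClosure L L'] {M : IntermediateField L L'}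
    (h : Five M (F.rootSet L')) :
    Stays L' ((F.map (algebraMap k L)).map (algebraMap L M)) := by
  intro k1 hfin hk1
  haveI : IsSepClosed L' := IsSepClosure.sep_closed L
  haveI : Algebra.IsSeparable L L' := IsSepClosure.separable
  haveI : Algebra.IsSeparable M L' := Algebra.isSeparable_tower_top_of_isSeparable L M L'
  haveI : Algebra.IsSeparable M k1 := Algebra.isSeparable_tower_bot_of_isSeparable M k1 L'
  obtain ⟨x, hx⟩ := Field.exists_primitive_element M k1
  have hint : IsIntegral M x := Algebra.IsIntegral.isIntegral x
  have hdeg : (minpoly M x).natDegree ≤ 4 := by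
    have h1 := IntermediateField.adjoin.finrank hint
    rw [hx, IntermediateField.finrank_top'] at h1
    omega
  have hxe : aeval (x : L') (minpoly M x) = 0 := by
    have h1 := aeval_algebraMap_apply L' x (minpoly M x)
    rw [minpoly.aeval, map_zero] at h1
    exact h1
  have h5' := h.step (minpoly.ne_zero hint) hdeg hxe
  have hk : (IntermediateField.adjoin M {(x : L')}) = k1 := by
    have h1 := congrArg (IntermediateField.map k1.val) hx
    rw [IntermediateField.adjoin_map, Set.image_singleton] at h1
    have h2 : IntermediateField.map k1.val (⊤ : IntermediateField M k1) = k1 := by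
      ext y
      constructor
      · rintro ⟨z, -, rfl⟩
        exact z.2
      · intro hy
        exact ⟨⟨y, hy⟩, trivial, rfl⟩
    rw [h2] at h1
    exact h1
  rw [hk] at h5'
  have hFs : (F.map (algebraMap k L')).Splits := IsSepClosed.splits_of_separable _ hF.map
  have hn : (F.rootSet L').ncard = F.natDegree := by
    rw [← Nat.card_coe_set_eq, Nat.card_eq_fintype_card, card_rootSet_eq_natDegree hF hFs]
  have h3 := three_restrict (h5'.three (by rw [hn]; exact h5))
  have hsep : (((F.map (algebraMap k L)).map (algebraMap L M)).map (algebraMap M k1)).Separable :=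
    hF.map.map.map
  have hspl : ((((F.map (algebraMap k L)).map (algebraMap L M)).map (algebraMap M k1)).map
      (algebraMap k1 L')).Splits := IsSepClosed.splits_of_separable _ hsep.map
  have hZ : (((F.map (algebraMap k L)).map (algebraMap L M)).map (algebraMap M k1)).rootSet L' =
      F.rootSet L' := by
    ext x
    rw [mem_rootSet, mem_rootSet]
    have e : aeval x (((F.map (algebraMap k L)).map (algebraMap L M)).map (algebraMap M k1)) =
        aeval x F := by
      rw [aeval_map_algebraMap, aeval_map_algebraMap, aeval_map_algebraMap]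
    rw [e]
    exact ⟨fun h => ⟨hF.ne_zero, h.2⟩, fun h => ⟨hsep.ne_zero, h.2⟩⟩
  refine irr_of_three hsep hspl (by rw [natDegree_map, natDegree_map, natDegree_map]; omega) ?_
  rw [hZ]
  exact h3

end stays

end Pool.Agent.N181.TB
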