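import Pool.Agent.N181.P8.Setup
import Pool.Agent.N181.TB.Stays

/-!
Complete first descents over an extension of the constants which is a tower of extensions generated by
roots of polynomials of degree at most three.
-/

set_option autoImplicit false
set_option linter.all false

open Polynomial IsDedekindDomain WeierstrassCurve WeierstrassCurve.Affine
open scoped Classical

namespace Pool.Agent.N181.TB

open Pool.Agent.N181.TA (Five Stable st_set4)
open Pool.Agent.N181.P8
open Pool.Agent.N181.T3 Pool.Agent.N181.P3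
open Pool.Agent.X243.Gen (pb pb_sum pb_mul pb_C pb_one pb_pow pb_lin pb_map pb_frac pb_ne exists_psi
  natDegree_pb root_of_prime form_cop)
open Pool.Agent.TH115.GD (Pt act incl rs ak act_zero act_some act_inj act_act IsTower Sep
  splits_of_sep)

section setup

variable {L L' : Type} [Field L] [Field L'] [Algebra L L'] [IsSepClosure L L']

/-- **The extension of the constants.** -/
theorem exists_stable3 {a b : L[X]} (hB : RatBase a b) {St : IntermediateField L L' → Prop}
    (hSt : Stable St) (hbot : St ⊥)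
    (hsep : ∀ π : L[X], Irreducible π → π ∣ b * (a ^ 3 - 27 * b) → π.Separable) :
    ∃ M : IntermediateField L L', St M ∧
      ((b * (a ^ 3 - 27 * b)).map (algebraMap L M)).Splits ∧ (∃ z : M, z ^ 2 + z + 1 = 0) ∧
      ∀ (K : Type) [Field K] [Algebra M[X] K] [IsFractionRing M[X] K],
        Base3 K 1 (a.map (algebraMap L M)) (b.map (algebraMap L M)) := by
  haveI : IsSepClosed L' := IsSepClosure.sep_closed L
  have hb0 := hB.hb0
  have hd0 := hB.hd0
  have h0 : b * (a ^ 3 - 27 * b) ≠ 0 := mul_ne_zero hb0 hd0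
  have h3' : (3 : L') ≠ 0 := three_map (algebraMap L L') hB.three
  have hs := splits_of_sep (k' := L') h0 hsep
  obtain ⟨z, hz⟩ := exists_z (F := L') h3'
  -- the roots
  set S : Finset L' := ((b * (a ^ 3 - 27 * b)).rootSet_finite L').toFinset ∪ {z} with hS
  obtain ⟨M1, -, hM1, hS1⟩ := st_set4 hSt S (by
    intro x hx
    rw [hS, Finset.mem_union, Set.Finite.mem_toFinset, Finset.mem_singleton] at hx
    rcases hx with hx | rfl
    · rw [mem_rootSet] at hx
      have h1 := hx.2
      rw [map_mul] at h1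
      rcases mul_eq_zero.1 h1 with h | h
      · exact ⟨b, hb0, hB.db.trans (by norm_num), h⟩
      · exact ⟨_, hd0, hB.dd.trans (by norm_num), h⟩
    · refine ⟨X ^ 2 + X + 1, ?_, ?_, ?_⟩
      · intro h
        have := congrArg (fun p => coeff p 2) h
        simp [coeff_X, coeff_one] at this
      · refine (natDegree_add_le _ _).trans (max_le ((natDegree_add_le _ _).trans (max_le ?_ ?_)) ?_)
        · rw [natDegree_X_pow]; norm_num
        · rw [natDegree_X]; norm_num
        · rw [natDegree_one]; norm_num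
      · simpa using hz) ⊥ hbot
  have hsM1 : ((b * (a ^ 3 - 27 * b)).map (algebraMap L M1)).Splits :=
    IntermediateField.splits_of_splits hs fun x hx => hS1 x (by
      rw [hS, Finset.mem_union, Set.Finite.mem_toFinset]
      exact Or.inl hx)
  have hz1 : z ∈ M1 := hS1 z (by
    rw [hS, Finset.mem_union]
    exact Or.inr (Finset.mem_singleton_self z))
  have hB1 := hB.map (algebraMap L M1)
  have inj1 := (algebraMap L M1).injective
  have h01 : (b * (a ^ 3 - 27 * b)).map (algebraMap L M1) ≠ 0 :=
    (Polynomial.map_ne_zero_iff inj1).2 h0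
  have sb1 : (b.map (algebraMap L M1)).Splits :=
    hsM1.of_dvd h01 ((mapRingHom (algebraMap L M1)).map_dvd (dvd_mul_right _ _))
  have sd1 : ((a ^ 3 - 27 * b).map (algebraMap L M1)).Splits :=
    hsM1.of_dvd h01 ((mapRingHom (algebraMap L M1)).map_dvd (dvd_mul_left _ _))
  obtain ⟨G, hG, hGC⟩ := exists_cubic hB1.three hB1.da hB1.db sb1 hB1.cb hB1.hd0
  have hdual : (3 * a.map (algebraMap L M1)) ^ 3 -
      27 * ((a.map (algebraMap L M1)) ^ 3 - 27 * b.map (algebraMap L M1)) ≠ 0 := by
    rw [dual_disc]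
    exact mul_ne_zero (C_ne_zero.2 (pow_ne_zero 6 hB1.three)) hB1.hb0
  obtain ⟨H, hH, hHC⟩ := exists_cubic hB1.three (a := 3 * a.map (algebraMap L M1))
    (three_a.trans hB1.da) hB1.dd (by rw [map_disc]; exact sd1) hB1.cd hdual
  -- the roots of the cubic polynomials
  obtain ⟨x, hx⟩ := cubic_root (N := L') hB1.three hG
  obtain ⟨M2, h12, hM2, hx2⟩ := hSt.step4 hM1 (x := x) (G := G) (by
    rintro rfl
    rw [natDegree_zero] at hG
    omega) (hG.le.trans (by norm_num)) hx
  obtain ⟨y, hy⟩ := cubic_root (N := L') hB1.three hH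
  have hy2 : aeval y (H.map (IntermediateField.inclusion h12 : M1 →+* M2)) = 0 := by
    rw [aeval_def, eval₂_map]
    exact hy
  obtain ⟨M, h23, hM, hy3⟩ := hSt.step4 hM2 (x := y)
    (G := H.map (IntermediateField.inclusion h12 : M1 →+* M2)) (by
    intro h
    rw [Polynomial.map_eq_zero_iff (RingHom.injective _)] at h
    rw [h, natDegree_zero] at hH
    omega) (by rw [natDegree_map]; exact hH.le.trans (by norm_num)) hy2
  let φ : M1 →+* M := (IntermediateField.inclusion (h12.trans h23) : M1 →ₐ[L] M)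
  have hφ : φ.comp (algebraMap L M1) = algebraMap L M :=
    (IntermediateField.inclusion (h12.trans h23)).comp_algebraMap
  have hval : ∀ t : M1, ((φ t : M) : L') = (t : L') := fun t => rfl
  have hsM : ((b * (a ^ 3 - 27 * b)).map (algebraMap L M)).Splits := by
    rw [← hφ, ← Polynomial.map_map]
    exact hsM1.map φ
  have hBM := hB.map (algebraMap L M)
  have h0M : (b * (a ^ 3 - 27 * b)).map (algebraMap L M) ≠ 0 :=
    (Polynomial.map_ne_zero_iff (algebraMap L M).injective).2 h0
  have sb : (b.map (algebraMap L M)).Splits :=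
    hsM.of_dvd h0M ((mapRingHom (algebraMap L M)).map_dvd (dvd_mul_right _ _))
  have sd : ((a.map (algebraMap L M)) ^ 3 - 27 * b.map (algebraMap L M)).Splits := by
    rw [map_disc]
    exact hsM.of_dvd h0M ((mapRingHom (algebraMap L M)).map_dvd (dvd_mul_left _ _))
  have hzM : z ∈ M := (h12.trans h23) hz1
  refine ⟨M, hM, hsM, ⟨⟨z, hzM⟩, Subtype.ext hz⟩, ?_⟩
  intro K _ _ _
  have evalφ : ∀ (G : M1[X]) (t : L') (ht : t ∈ M), aeval t G = 0 →
      eval₂ φ (⟨t, ht⟩ : M) G = 0 := by
    intro G t ht h
    apply (algebraMap M L').injective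
    rw [map_zero, hom_eval₂]
    exact h
  have e1 : (a.map (algebraMap L M1)).map φ = a.map (algebraMap L M) := by
    rw [Polynomial.map_map, hφ]
  have e2 : (b.map (algebraMap L M1)).map φ = b.map (algebraMap L M) := by
    rw [Polynomial.map_map, hφ]
  refine ⟨hBM.three, hBM.da, hBM.db, hBM.hb0, hBM.hd0, sb, sd, exists_mult3 hBM.db sb hBM.cb,
    exists_mult3 hBM.dd sd hBM.cd, ?_, ?_⟩
  · have := hGC M K φ ⟨x, h23 hx2⟩ (evalφ G x (h23 hx2) hx)
    rwa [e1, e2] at this
  · have := hHC M K φ ⟨y, hy3⟩ (evalφ H y hy3 hy)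
    have e3 : (3 * a.map (algebraMap L M1)).map φ = 3 * a.map (algebraMap L M) := by
      rw [Polynomial.map_mul, Polynomial.map_ofNat, e1]
    have e4 : ((a.map (algebraMap L M1)) ^ 3 - 27 * b.map (algebraMap L M1)).map φ =
        (a.map (algebraMap L M)) ^ 3 - 27 * b.map (algebraMap L M) := by
      rw [← map_disc, e1, e2]
    rwa [e3, e4] at this

end setup

end Pool.Agent.N181.TB
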