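import Pool.Agent.N181.P8.Main
import Pool.Agent.N181.P3.Ext
import Pool.Agent.N181.TB.Small

/-!
The Tate conjecture at 3 and the points modulo 3 for the pullbacks of the rational elliptic surfaces with a
section of order three whose forms have full symmetric Galois groups, over all extensions with solvable
constants.
-/

set_option autoImplicit false
set_option linter.all false

open Polynomial IsDedekindDomain WeierstrassCurve WeierstrassCurve.Affine
open scoped Classical

namespace Pool.Agent.N181.TB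

open Pool.Agent.N181.TA (Five Stable stable_five five_bot)
open Pool.Agent.N181.P8
open Pool.Agent.N181.T3 Pool.Agent.N181.P3
open Pool.Agent.X243.Gen (FF solvM solvM_normal mem_solvM solvM_not_splits
  pb pb_sum pb_mul pb_C pb_one pb_pow pb_lin pb_map pb_frac pb_ne exists_psi
  natDegree_pb root_of_prime form_cop)
open Pool.Agent.TH115.GD (Pt act incl rs ak act_zero act_some act_inj act_act IsTower Sep sepKΩ
  preserves Preserves)

section forms

variable {k : Type} [Field k]

/-- The forms of the places of bad reduction: the polynomials `q - ξ r` for the roots `ξ` of the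
discriminant, and `r` if the place at infinity is bad and `r` is not `1`. -/
def Form3 (a b q r : k[X]) (f : k[X]) : Prop :=
  (∃ ξ, (b * (a ^ 3 - 27 * b)).IsRoot ξ ∧ f = q - C ξ * r) ∨
    (¬ (b.natDegree = 3 ∧ (a ^ 3 - 27 * b).natDegree = 3) ∧ r ≠ 1 ∧ f = r)

theorem pwS_of {L L' : Type} [Field L] [Field L'] [Algebra L L'] {f : L[X]} (h2 : f.Separable)
    (h1 : Stays L' f) : PwS L' f :=
  ⟨f, 1, 1, one_ne_zero, by norm_num, h2, h1, by rw [C_1, one_mul, pow_one]⟩

theorem fib_five3 {a b q r : k[X]} {n : ℕ} (hB : RatBase a b)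
    (hs : (b * (a ^ 3 - 27 * b)).Splits) (h5 : 5 ≤ n) (hco : IsCoprime q r)
    (hq : q.natDegree = n) (hr : r.natDegree ≤ n) (hf : ∀ f, Form3 a b q r f → FF n f)
    {L L' : Type} [Field L] [Field L'] [Algebra k L] [Algebra L L'] [Algebra k L']
    [IsScalarTower k L L'] [IsSepClosure L L'] {M : IntermediateField L L'}
    (hM : ∀ f, Form3 a b q r f → Five M (f.rootSet L')) :
    Fib8 (RingHom.id M) L' ((q.map (algebraMap k L)).map (algebraMap L M))
      ((r.map (algebraMap k L)).map (algebraMap L M)) 1 n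
      ((a.map (algebraMap k L)).map (algebraMap L M))
      ((b.map (algebraMap k L)).map (algebraMap L M)) := by
  set φ : k →+* M := (algebraMap L M).comp (algebraMap k L) with hφ
  have em : ∀ p : k[X], (p.map (algebraMap k L)).map (algebraMap L M) = p.map φ := fun p => by
    rw [Polynomial.map_map]
  have key : ∀ f, Form3 a b q r f → PwS L' (f.map φ) ∧ (f.map φ).natDegree = n := by
    intro f h
    obtain ⟨f1, f2, f3⟩ := hf f h
    have hd : (f.map φ).natDegree = n := by rw [natDegree_map, f1.2]
    refine ⟨pwS_of f2.map ?_, hd⟩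
    rw [← em]
    exact five_stays f2 (by rw [f1.2]; exact h5) L L' (hM f h)
  rw [em, em, em, em]
  refine ⟨hco.map (mapRingHom φ), ?_, ?_, ?_, ?_, ?_⟩
  · rw [natDegree_map, hq]
    omega
  · rw [natDegree_map, hq]
  · rw [natDegree_map]
    exact hr
  · intro ξ hξ
    rw [map_disc, ← Polynomial.map_mul] at hξ
    obtain ⟨x, hx⟩ := hs.mem_range_of_isRoot (mul_ne_zero hB.hb0 hB.hd0) hξ
    have hx' : (b * (a ^ 3 - 27 * b)).IsRoot x := by
      rw [← hx, IsRoot.def, eval_map, eval₂_at_apply] at hξ
      exact (map_eq_zero_iff φ φ.injective).1 hξ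
    have e : (q - C x * r).map φ = q.map φ - C (RingHom.id M ξ) * r.map φ := by
      rw [Polynomial.map_sub, Polynomial.map_mul, map_C, hx]
      rfl
    rw [← e]
    exact key _ (Or.inl ⟨x, hx', rfl⟩)
  · rw [map_disc, natDegree_map, natDegree_map]
    by_cases h1 : r = 1
    · left
      rw [h1, Polynomial.map_one]
    by_cases h : b.natDegree = 3 ∧ (a ^ 3 - 27 * b).natDegree = 3
    · exact Or.inr (Or.inl h)
    · exact Or.inr (Or.inr (key _ (Or.inr ⟨h, h1, rfl⟩)))

end forms

section main

variable {k L L' K₀ K F : Type} [Field k] [Field L] [Field L'] [Field K₀] [Field K] [Field F]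
  [Algebra k L] [Algebra L L'] [Algebra k L'] [IsScalarTower k L L']
  [Algebra L[X] K₀] [IsFractionRing L[X] K₀]
  [Algebra L[X] K] [Algebra L'[X] F] [IsFractionRing L'[X] F] [Algebra K F]

set_option maxHeartbeats 4000000 in
theorem mainA3 (hT : IsTower L L' K F) {a b q r : k[X]} {n : ℕ} (hB : RatBase a b)
    (hs0 : (b * (a ^ 3 - 27 * b)).Splits) (h5 : 5 ≤ n) (hpar : ¬ 3 ∣ n) (hco0 : IsCoprime q r)
    (hq0 : q.natDegree = n) (hr : r.natDegree ≤ n) (hf : ∀ f, Form3 a b q r f → FF n f)
    (M₀ : IntermediateField k L') [Normal k M₀]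
    (hM₀ : ∀ x : L, IsSeparable k x → algebraMap L L' x ∈ M₀)
    (hns : ∀ f, Form3 a b q r f → ¬ (f.map (algebraMap k M₀)).Splits) :
    TateQ (F := F) 3 L' (surf K (q.map (algebraMap k L)) (r.map (algebraMap k L))
      (a.map (algebraMap k L)) (b.map (algebraMap k L))) ∧
    PointsIdx K₀ K F (q.map (algebraMap k L)) (r.map (algebraMap k L))
      (a.map (algebraMap k L)) (b.map (algebraMap k L)) := by
  haveI := hT.sep
  haveI := hT.fracK
  haveI : IsSepClosed L' := IsSepClosure.sep_closed L
  haveI : IsSepClosure K (Sep F) := sepKΩ hT.map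
  haveI : Algebra.IsSeparable K (Sep F) := IsSepClosure.separable
  haveI : IsGalois K (Sep F) := inferInstance
  have hpres : Preserves K F (Sep F) := preserves hT.map
  have hBL := hB.map (algebraMap k L)
  have h0 : b * (a ^ 3 - 27 * b) ≠ 0 := mul_ne_zero hB.hb0 hB.hd0
  have edL : (b.map (algebraMap k L)) * ((a.map (algebraMap k L)) ^ 3 -
      27 * b.map (algebraMap k L)) = (b * (a ^ 3 - 27 * b)).map (algebraMap k L) := by
    rw [map_disc, ← Polynomial.map_mul]
  have hsepL : ∀ π : L[X], Irreducible π → π ∣ (b.map (algebraMap k L)) *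
      ((a.map (algebraMap k L)) ^ 3 - 27 * b.map (algebraMap k L)) → π.Separable := by
    rw [edL]
    refine sep_map _ h0 fun π h1 h2 => ?_
    have h3 := (hs0.of_dvd h0 h2).natDegree_eq_one_of_irreducible h1
    obtain ⟨x, hx, y, e⟩ := natDegree_eq_one.1 h3
    rw [← e]
    have h4 : (C x * X + C y : k[X]) = C x * (X - C (-(y / x))) := by
      have h5 : (C x * C (y / x) : k[X]) = C y := by
        rw [← C_mul, mul_div_cancel₀ _ hx]
      rw [C_neg, ← h5]
      ring
    rw [h4]
    exact (separable_X_sub_C (x := -(y / x))).unit_mul (isUnit_C.2 (isUnit_iff_ne_zero.2 hx))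
  -- the class of fields
  obtain ⟨S, hS⟩ : ∃ S : Set (Set L'), S = {Z | ∃ f, Form3 a b q r f ∧ Z = f.rootSet L'} := ⟨_, rfl⟩
  have hbot : FiniteDimensional L (⊥ : IntermediateField L L') ∧
      ∀ Z ∈ S, Five (⊥ : IntermediateField L L') Z := by
    refine ⟨inferInstance, ?_⟩
    rw [hS]
    rintro Z ⟨f, hff, rfl⟩
    obtain ⟨f1, f2, f3⟩ := hf f hff
    exact five_bot f2 (by rw [f1.2]; exact h5) f3 L L' M₀ hM₀ (hns f hff)
  obtain ⟨M, ⟨hMf, hM5⟩, hMs, ⟨z, hz⟩, hMB⟩ := exists_stable3 (L' := L') hBL (stable_five S) hbot hsepL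
  haveI := hMf
  have hF := fib_five3 (L' := L') (M := M) hB hs0 h5 hco0 hq0 hr hf (fun f hff => hM5 _ (by
    rw [hS]
    exact ⟨f, hff, rfl⟩))
  set aL := a.map (algebraMap k L) with haL
  set bL := b.map (algebraMap k L) with hbL
  set qL := q.map (algebraMap k L) with hqL
  set rL := r.map (algebraMap k L) with hrL
  -- the fields
  obtain ⟨i₁, hi₁⟩ := exists_lift (K := K) (K₁ := FractionRing M[X]) (algebraMap L M)
  obtain ⟨i₂, hi₂⟩ := exists_lift (K := FractionRing M[X]) (K₁ := F) (algebraMap M L')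
  letI : Algebra K (FractionRing M[X]) := i₁.toAlgebra
  letI : Algebra (FractionRing M[X]) F := i₂.toAlgebra
  have hKK : ∀ p : L[X], algebraMap K (FractionRing M[X]) (algebraMap L[X] K p) =
      algebraMap M[X] (FractionRing M[X]) (p.map (algebraMap L M)) := hi₁
  haveI : IsScalarTower K (FractionRing M[X]) F := by
    refine IsScalarTower.of_algebraMap_eq fun x => ?_
    obtain ⟨g, h, hh, rfl⟩ := IsFractionRing.div_surjective (A := L[X]) x
    have key : ∀ g : L[X], algebraMap K F (algebraMap L[X] K g) =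
        i₂ (i₁ (algebraMap L[X] K g)) := by
      intro g
      rw [hT.map, hi₁, hi₂, Polynomial.map_map]
      rfl
    show algebraMap K F _ = i₂ (i₁ _)
    rw [map_div₀, map_div₀, map_div₀, key, key]
  haveI : IsSepClosure M L' := ⟨IsSepClosure.sep_closed L, by
    haveI : Algebra.IsSeparable L L' := IsSepClosure.separable
    exact Algebra.isSeparable_tower_top_of_isSeparable L M L'⟩
  have hT1 : IsTower M L' (FractionRing M[X]) F := ⟨inferInstance, inferInstance, hi₂⟩
  haveI : FiniteDimensional K (FractionRing M[X]) := finite_mid hKK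
  have hB3 := hMB (FractionRing M[X])
  have i31 : 3 * 1 = 3 := rfl
  -- the coefficients
  have eA : algebraMap K (FractionRing M[X]) (algebraMap L[X] K (hb qL rL 1 aL)) =
      algebraMap M[X] (FractionRing M[X]) (hb (qL.map (algebraMap L M)) (rL.map (algebraMap L M)) 1
        ((aL.map (algebraMap L M)).map (RingHom.id M))) := by
    rw [hKK, hb_map, Polynomial.map_id]
  have eB : algebraMap K (FractionRing M[X]) (algebraMap L[X] K (hb qL rL 3 bL)) =
      algebraMap M[X] (FractionRing M[X]) (hb (qL.map (algebraMap L M)) (rL.map (algebraMap L M))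
        (3 * 1) ((bL.map (algebraMap L M)).map (RingHom.id M))) := by
    rw [hKK, hb_map, Polynomial.map_id]
  refine ⟨?_, ?_⟩
  · have h1 := tate_pull8 (K₀ := FractionRing M[X]) (F := F) hT1 hB3 (RingHom.id M) hF hpar
    refine tate_desc (K₁ := FractionRing M[X]) hpres ?_
    have e : (surf K qL rL aL bL).map (algebraMap K (FractionRing M[X])) =
        crv3 (algebraMap M[X] (FractionRing M[X]) (hb (qL.map (algebraMap L M))
          (rL.map (algebraMap L M)) 1 ((aL.map (algebraMap L M)).map (RingHom.id M))))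
          (algebraMap M[X] (FractionRing M[X]) (hb (qL.map (algebraMap L M))
            (rL.map (algebraMap L M)) (3 * 1)
            ((bL.map (algebraMap L M)).map (RingHom.id M)))) := by
      rw [← eA, ← eB]
      ext
      · rfl
      · exact map_zero _
      · rfl
      · exact map_zero _
      · exact map_zero _
    rw [e]
    exact h1
  · have hmw := mw_pull8 (K₀ := FractionRing M[X]) (F := F) hT1 hB3 (RingHom.id M) hF hpar
    rw [← eA, ← eB] at hmw
    obtain ⟨ψ₁, ι₁, hψ₁, -, hs₁, hP₁⟩ := hmw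
    have hP₂ := hP₁ (Or.inr ⟨z, hz⟩)
    have hco : IsCoprime qL rL := hco0.map (mapRingHom (algebraMap k L))
    have hq : 0 < qL.natDegree := by rw [hqL, natDegree_map, hq0]; omega
    have hr0 : rL ≠ 0 := by
      intro h
      have h1 := hF.r0
      rw [h, Polynomial.map_zero] at h1
      exact h1 rfl
    have hr0' : algebraMap L[X] K rL ≠ 0 := by
      rw [Ne, map_eq_zero_iff _ (IsFractionRing.injective L[X] K)]
      exact hr0
    obtain ⟨ψ, hψ⟩ := exists_psi (K₀ := K₀) (K := K) (RingHom.id L) (q := qL) hr0 (fun g hg =>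
      pb_ne hco hq (by rw [Polynomial.map_id]; exact hg))
    have ρa := hb_psi (RingHom.id L) hψ hBL.da
    have ρb := hb_psi (RingHom.id L) hψ hBL.db
    rw [Polynomial.map_id] at ρa ρb
    rw [pow_one] at ρa
    obtain ⟨ι, hι, hs, -⟩ := exists_hom3 ψ hr0' ρa ρb
    refine ⟨ψ, ι, fun c => ?_, ?_, hι, hs, fun hfg => ?_⟩
    · have := hψ (C c)
      rw [Polynomial.map_id, pb_C, natDegree_C, pow_zero, one_mul] at this
      exact this.symm
    · have := hψ X
      have e3 : pb qL rL (X.map (RingHom.id L)) = qL := by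
        have h4 := pb_lin qL rL 0
        rw [C_0, sub_zero, zero_mul, sub_zero] at h4
        rw [Polynomial.map_id, h4]
      rw [e3, natDegree_X, pow_one] at this
      rw [eq_div_iff hr0', this, mul_comm]
    · exact pts_final (L := L) (M := M) (K₀ := K₀) (K := K) (K₁ := FractionRing M[X]) (F := F)
        hBL.three hKK hr0 (fun g hg => pb_ne (hco.map (mapRingHom (algebraMap L M)))
          (by rw [coe_mapRingHom, natDegree_map]; exact hq) hg) hψ hψ₁ hBL.hb0 hBL.hd0 hs hs₁ hP₂ hfg

/-- The same for solvable constants. -/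
theorem mainB3 (hT : IsTower L L' K F) {a b q r : k[X]} {n : ℕ} (hB : RatBase a b)
    (hs0 : (b * (a ^ 3 - 27 * b)).Splits) (h5 : 5 ≤ n) (hpar : ¬ 3 ∣ n) (hco0 : IsCoprime q r)
    (hq0 : q.natDegree = n) (hr : r.natDegree ≤ n) (hf : ∀ f, Form3 a b q r f → FF n f)
    (hM : ∀ x : L, IsSeparable k x → Group.IsSolvable (minpoly k x).Gal) :
    TateQ (F := F) 3 L' (surf K (q.map (algebraMap k L)) (r.map (algebraMap k L))
      (a.map (algebraMap k L)) (b.map (algebraMap k L))) ∧
    PointsIdx K₀ K F (q.map (algebraMap k L)) (r.map (algebraMap k L))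
      (a.map (algebraMap k L)) (b.map (algebraMap k L)) := by
  haveI := hT.sep
  haveI : IsSepClosed L' := IsSepClosure.sep_closed L
  haveI := solvM_normal (k := k) L'
  exact mainA3 hT hB hs0 h5 hpar hco0 hq0 hr hf (solvM k L') (fun x hx => mem_solvM hx (hM x hx))
    (fun f h => solvM_not_splits L' (hf f h).2.1 (by rw [(hf f h).1.2]; exact h5) (hf f h).2.2)

end main

end Pool.Agent.N181.TB
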